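import Pool.Agent.helper67.GV.Spec

set_option autoImplicit false

open Finset Filter Topology

namespace Pool.Agent.helper67.GV

open Pool.Agent.helper21.GR

theorem FMI_opt {K : Type} [Fintype K] (f : Option K → ℕ) :
    Multiset.map f (univ : Finset (Option K)).val =
      f none ::ₘ Multiset.map (fun k => f (some k)) (univ : Finset K).val := by
  have h : (univ : Finset (Option K)).val = none ::ₘ Multiset.map some (univ : Finset K).val := rfl
  rw [h, Multiset.map_cons, Multiset.map_map]
  rfl

/-- the capacities -/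
def FMI_cap (s : Multiset ℕ) (A B : ℕ) : Option (Option (1 ::ₘ s).ToType) → ℕ
  | none => A
  | some none => B
  | some (some p) => (p : ℕ)

theorem FMI_map (s : Multiset ℕ) (A B : ℕ) :
    Multiset.map (FMI_cap s A B) (univ : Finset (Option (Option (1 ::ₘ s).ToType))).val =
      1 ::ₘ A ::ₘ B ::ₘ s := by
  rw [FMI_opt, FMI_opt]
  have h : Multiset.map (fun k : (1 ::ₘ s).ToType => FMI_cap s A B (some (some k)))
      (univ : Finset (1 ::ₘ s).ToType).val = 1 ::ₘ s := by
    exact Multiset.map_univ_coe (1 ::ₘ s)
  rw [h]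
  show A ::ₘ B ::ₘ 1 ::ₘ s = 1 ::ₘ A ::ₘ B ::ₘ s
  rw [Multiset.cons_swap B 1, Multiset.cons_swap A 1]

theorem FMI (hSB2 : SB2_stmt) (hFM2 : FM2_stmt) : FMI_stmt := by
  intro n r a b A B s hr hA hB
  classical
  have hne : (none : Option (Option (1 ::ₘ s).ToType)) ≠ some none := by simp
  have h := hSB2 (Option (Option (1 ::ₘ s).ToType)) (FMI_cap s A B) (Fin n) none (some none) r hne hr univ a b hA hB
  rw [hFM2 _ (FMI_cap s A B) (A ::ₘ B ::ₘ s) (FMI_map s A B)] at h
  have e : ∀ v : Fin n, Function.update (Function.update (FMI_cap s A B) none (a v)) (some none) (b v) =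
      FMI_cap s (a v) (b v) := by
    intro v
    funext o
    rcases o with _ | o
    · rw [Function.update_of_ne hne, Function.update_self]
      rfl
    · rcases o with _ | p
      · rw [Function.update_self]
        rfl
      · rw [Function.update_of_ne (by simp), Function.update_of_ne (by simp)]
        rfl
  refine le_trans (le_of_eq ?_) h
  refine Finset.sum_congr rfl (fun v _ => ?_)
  rw [e v, hFM2 _ (FMI_cap s (a v) (b v)) (a v ::ₘ b v ::ₘ s) (FMI_map s (a v) (b v))]

end Pool.Agent.helper67.GV
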