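import Pool.Agent.helper67.GV.Spec

set_option autoImplicit false

open Finset Filter Topology

namespace Pool.Agent.helper67.GV

open Pool.Agent.helper21.GR

theorem HFP (hRAM : RAM_stmt) (hFMI : FMI_stmt) (hFMH : FMH_stmt) (hFM0 : FM0_stmt) (hMSA : MSA_stmt) :
    HFP_stmt := by
  obtain ⟨hadd, hmem, hzero, hrep⟩ := hMSA
  obtain ⟨hF0, hF1⟩ := hFM0
  intro T hT
  have hK1 : 1 ≤ K0 (T + 1) := (hRAM (T + 1) (by omega)).2.1
  have hpos : ∀ x : Fin (T + 1) → ℕ, 1 ≤ Fm (ms x) := by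
    intro x
    exact hF1 (ms x) (fun c hc => (hmem (T + 1) x c hc).1)
  have hposR : ∀ x : Fin (T + 1) → ℕ, (0 : ℝ) < (Fm (ms x) : ℝ) := by
    intro x
    exact_mod_cast hpos x
  have hexp : ∀ x : Fin (T + 1) → ℕ, Real.exp (Hf x) = (Fm (ms x) : ℝ) := by
    intro x
    unfold Hf
    exact Real.exp_log (hposR x)
  have hstep : ∀ (x : Fin (T + 1) → ℕ) (a : Fin (T + 1)),
      Fm (ms x) ≤ Fm (ms (x + Pi.single a 1)) ∧
        Fm (ms (x + Pi.single a 1)) ≤ K0 (T + 1) ^ (a : ℕ) * Fm (ms x) := by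
    intro x a
    have h := hFMH (T + 1) (ms x) ((a : ℕ) + 1) (by omega) (hmem (T + 1) x) (by omega) (by
      have := a.isLt
      omega)
    rw [hadd]
    rw [Nat.add_sub_cancel] at h
    exact h
  refine ⟨?_, ⟨Real.log ((K0 (T + 1) : ℝ) ^ T), ?_⟩, ?_, ?_, ?_⟩
  · unfold Hf
    rw [hzero, hF0]
    simp
  · intro x a
    obtain ⟨h1, h2⟩ := hstep x a
    constructor
    · rw [sub_nonneg]
      unfold Hf
      apply Real.log_le_log (hposR x)
      exact_mod_cast h1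
    · rw [sub_le_iff_le_add]
      unfold Hf
      have hKR : (1 : ℝ) ≤ (K0 (T + 1) : ℝ) := by exact_mod_cast hK1
      have hKp : (0 : ℝ) < (K0 (T + 1) : ℝ) ^ T := pow_pos (by linarith) T
      rw [← Real.log_mul (ne_of_gt hKp) (ne_of_gt (hposR x))]
      apply Real.log_le_log (hposR _)
      have h3 : (Fm (ms (x + Pi.single a 1)) : ℝ) ≤ (K0 (T + 1) : ℝ) ^ (a : ℕ) * (Fm (ms x) : ℝ) := by
        exact_mod_cast h2
      have h4 : (K0 (T + 1) : ℝ) ^ (a : ℕ) ≤ (K0 (T + 1) : ℝ) ^ T := by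
        apply pow_le_pow_right₀ hKR
        have := a.isLt
        omega
      calc (Fm (ms (x + Pi.single a 1)) : ℝ) ≤ (K0 (T + 1) : ℝ) ^ (a : ℕ) * (Fm (ms x) : ℝ) := h3
        _ ≤ (K0 (T + 1) : ℝ) ^ T * (Fm (ms x) : ℝ) :=
          mul_le_mul_of_nonneg_right h4 (le_of_lt (hposR x))
  · intro x
    obtain ⟨h1, h2⟩ := hstep x 0
    have h3 : Fm (ms (x + Pi.single 0 1)) = Fm (ms x) := by
      apply le_antisymm _ h1
      simpa using h2
    unfold Hf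
    rw [h3]
  · intro k
    unfold Hf
    rw [hrep T k]
  · intro n r a b A B hr hA hB x
    have e : ∀ u v : Fin (T + 1), ms (x + Pi.single u 1 + Pi.single v 1) =
        ((u : ℕ) + 1) ::ₘ ((v : ℕ) + 1) ::ₘ ms x := by
      intro u v
      rw [hadd, hadd, Multiset.cons_swap]
    have h := hFMI n r (fun v => (a v : ℕ) + 1) (fun v => (b v : ℕ) + 1) ((A : ℕ) + 1) ((B : ℕ) + 1)
      (ms x) hr hA hB
    have h2 : (∑ v, (Fm (((a v : ℕ) + 1) ::ₘ ((b v : ℕ) + 1) ::ₘ ms x) : ℝ)) ≤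
        (Fm (((A : ℕ) + 1) ::ₘ ((B : ℕ) + 1) ::ₘ ms x) : ℝ) := by
      exact_mod_cast h
    simp only [hexp, e]
    exact h2

end Pool.Agent.helper67.GV
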